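import Pool.Agent.MBX.Stmts
import Pool.Agent.Helper83_Pauli.Symm
import Pool.Agent.Helper41_Pauli.AsmDirac

/-!
# MBX, row REP: a state of a cyclic representation is a wave function
-/

set_option autoImplicit false
set_option linter.unusedSectionVars false

open MeasureTheory Complex ProbabilityTheory

noncomputable section

namespace Pool.Agent.MBX.H16

open Pool.Agent.MBX Pool.Agent.Helper49_Pauli
open Pool.Agent.Loc (γn PB)
open Pool.Agent.Helper61_Pauli (ev JJ JJ_X a_JJ)

section gauss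

variable {ι : Type} [Fintype ι] [DecidableEq ι]

/-- evaluation at a field configuration -/
def evy (P : MvPolynomial ι ℂ) (y : ι → ℝ) : ℂ :=
  MvPolynomial.eval (fun i => ((y i : ℝ) : ℂ)) P

lemma evy_add (P Q : MvPolynomial ι ℂ) (y : ι → ℝ) : evy (P + Q) y = evy P y + evy Q y := by
  unfold evy
  rw [map_add]

lemma evy_sub (P Q : MvPolynomial ι ℂ) (y : ι → ℝ) : evy (P - Q) y = evy P y - evy Q y := by
  unfold evy
  rw [map_sub]

lemma evy_mul (P Q : MvPolynomial ι ℂ) (y : ι → ℝ) : evy (P * Q) y = evy P y * evy Q y := by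
  unfold evy
  rw [map_mul]

lemma evy_sum {κ : Type} (s : Finset κ) (P : κ → MvPolynomial ι ℂ) (y : ι → ℝ) :
    evy (∑ i ∈ s, P i) y = ∑ i ∈ s, evy (P i) y := by
  unfold evy
  rw [map_sum]

lemma evy_C (z : ℂ) (y : ι → ℝ) : evy (MvPolynomial.C z) y = z := by
  unfold evy
  rw [MvPolynomial.eval_C]

lemma evy_X (i : ι) (y : ι → ℝ) : evy (MvPolynomial.X i) y = (y i : ℂ) := by
  unfold evy
  rw [MvPolynomial.eval_X]

lemma continuous_evy (P : MvPolynomial ι ℂ) : Continuous (evy P) := by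
  unfold evy
  exact (MvPolynomial.continuous_eval P).comp (by fun_prop)

lemma hasDerivAt_evy (P : MvPolynomial ι ℂ) (y : ι → ℝ) (i : ι) :
    HasDerivAt (fun t : ℝ => evy P (Function.update y i t)) (evy (MvPolynomial.pderiv i P) y)
      (y i) := by
  induction P using MvPolynomial.induction_on with
  | C c =>
    simp only [evy_C, MvPolynomial.pderiv_C]
    have h : evy (0 : MvPolynomial ι ℂ) y = 0 := by
      unfold evy
      rw [map_zero]
    rw [h]
    exact hasDerivAt_const _ _
  | add p q hp hq =>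
    simp only [evy_add, map_add]
    exact hp.add hq
  | mul_X p j hp =>
    simp only [evy_mul, evy_X, Derivation.leibniz, smul_eq_mul, evy_add]
    have h1 : HasDerivAt (fun t : ℝ => ((Function.update y i t j : ℝ) : ℂ))
        (evy (MvPolynomial.pderiv i (MvPolynomial.X j)) y) (y i) := by
      by_cases h : j = i
      · subst h
        rw [MvPolynomial.pderiv_X_self]
        have e : evy (1 : MvPolynomial ι ℂ) y = 1 := by
          unfold evy
          rw [map_one]
        rw [e]
        simp only [Function.update_self]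
        exact HasDerivAt.ofReal_comp (hasDerivAt_id _)
      · rw [MvPolynomial.pderiv_X_of_ne h]
        have e : evy (0 : MvPolynomial ι ℂ) y = 0 := by
          unfold evy
          rw [map_zero]
        rw [e]
        simp only [Function.update_of_ne h]
        exact hasDerivAt_const _ _
    have h2 := hp.mul h1
    rw [Function.update_eq_self] at h2
    refine h2.congr_deriv ?_
    ring

variable {D : Type} [NormedAddCommGroup D] [InnerProductSpace ℂ D]

/-- the norm identity with the product Gaussian measure -/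
lemma enorm_J {J : MvPolynomial ι ℂ →ₗ[ℂ] D}
    (hJ : ∀ P Q, inner ℂ (J P) (J Q) = ∫ y, (starRingEnd ℂ)
        (MvPolynomial.eval (fun i => ((y i : ℝ) : ℂ)) P) *
          MvPolynomial.eval (fun i => ((y i : ℝ) : ℂ)) Q ∂stdGaussian (EuclideanSpace ℝ ι))
    (Q : MvPolynomial ι ℂ) :
    ENNReal.ofReal (‖J Q‖ ^ 2) = ∫⁻ y, ENNReal.ofReal (‖evy Q y‖ ^ 2) ∂(γn ι) := by
  rw [Asm.enorm_J hJ Q, ← map_pi_eq_stdGaussian]
  exact lintegral_map_equiv (fun y => ENNReal.ofReal (‖ev Q y‖ ^ 2))
    (MeasurableEquiv.toLp 2 (ι → ℝ))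

/-- from norms in Fock space to integrals over the field configurations -/
lemma key {κ : Type} [Fintype κ] {J : MvPolynomial ι ℂ →ₗ[ℂ] D}
    (hJ : ∀ P Q, inner ℂ (J P) (J Q) = ∫ y, (starRingEnd ℂ)
        (MvPolynomial.eval (fun i => ((y i : ℝ) : ℂ)) P) *
          MvPolynomial.eval (fun i => ((y i : ℝ) : ℂ)) Q ∂stdGaussian (EuclideanSpace ℝ ι))
    (w : κ → ℝ) (hw : ∀ a, 0 ≤ w a) (Q : X3 → κ → MvPolynomial ι ℂ)
    (hc : ∀ a, Continuous fun z : (ι → ℝ) × X3 => evy (Q z.2 a) z.1) :
    ∫ x, ∑ a, w a * ‖J (Q x a)‖ ^ 2 = II (fun y x => ∑ a, w a * ‖evy (Q x a) y‖ ^ 2) := by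
  have hF : ∀ a, Measurable fun z : (ι → ℝ) × X3 => ENNReal.ofReal (‖evy (Q z.2 a) z.1‖ ^ 2) :=
    fun a => ((hc a).norm.pow 2).measurable.ennreal_ofReal
  have h1 : ∀ x a, ‖J (Q x a)‖ ^ 2 =
      (∫⁻ y, ENNReal.ofReal (‖evy (Q x a) y‖ ^ 2) ∂(γn ι)).toReal := by
    intro x a
    rw [← enorm_J hJ, ENNReal.toReal_ofReal (by positivity)]
  have hm : Measurable fun x => ∑ a, w a * ‖J (Q x a)‖ ^ 2 := by
    refine Finset.measurable_fun_sum _ fun a _ => Measurable.const_mul ?_ _
    simp only [h1]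
    exact (Measurable.lintegral_prod_left' (hF a)).ennreal_toReal
  have hcs : Continuous fun z : (ι → ℝ) × X3 => ∑ a, w a * ‖evy (Q z.2 a) z.1‖ ^ 2 :=
    continuous_finsetSum _ fun a _ => continuous_const.mul ((hc a).norm.pow 2)
  unfold II
  rw [integral_eq_lintegral_of_nonneg_ae
      (Filter.Eventually.of_forall fun x => Finset.sum_nonneg fun a _ =>
        mul_nonneg (hw a) (by positivity)) hm.aestronglyMeasurable,
    integral_eq_lintegral_of_nonneg_ae
      (Filter.Eventually.of_forall fun z => Finset.sum_nonneg fun a _ =>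
        mul_nonneg (hw a) (by positivity)) hcs.aestronglyMeasurable,
    lintegral_prod_symm _ hcs.measurable.ennreal_ofReal.aemeasurable]
  congr 1
  refine lintegral_congr fun x => ?_
  have e1 : ∀ y : ι → ℝ, ENNReal.ofReal (∑ a, w a * ‖evy (Q x a) y‖ ^ 2) =
      ∑ a, ENNReal.ofReal (w a) * ENNReal.ofReal (‖evy (Q x a) y‖ ^ 2) := by
    intro y
    rw [ENNReal.ofReal_sum_of_nonneg fun a _ => mul_nonneg (hw a) (by positivity)]
    exact Finset.sum_congr rfl fun a _ => ENNReal.ofReal_mul (hw a)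
  have e2 : ∀ a, Measurable fun y : ι → ℝ => ENNReal.ofReal (‖evy (Q x a) y‖ ^ 2) := fun a =>
    ((continuous_evy _).norm.pow 2).measurable.ennreal_ofReal
  simp only [e1]
  rw [lintegral_finsetSum _ fun a _ => (e2 a).const_mul _,
    ENNReal.ofReal_sum_of_nonneg fun a _ => mul_nonneg (hw a) (by positivity)]
  refine Finset.sum_congr rfl fun a _ => ?_
  rw [lintegral_const_mul _ (e2 a), ← enorm_J hJ, ENNReal.ofReal_mul (hw a)]

end gauss

section field

variable {cut L : ℝ}

/-- the coefficient of a real mode in the potential -/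
lemma cf_eq (hL : 0 < L) (P : Polarization L) (x : X3) (j : Fin 3) (i : Mode cut L) :
    Pool.Agent.Helper75_Pauli.Half.cf P x j i =
      am i * Real.cos (dot (kk i) x - tt i) * P.e i.1 i.2 j := by
  have hr : 0 < Real.sqrt (Pool.Agent.Helper49_Pauli.sq (wave L i.1)) :=
    Real.sqrt_pos.mpr (Pool.Agent.Helper75_Pauli.Half.sqn_wave_pos hL
      (Pool.Agent.Helper75_Pauli.Half.mode_ne i))
  have h : Real.sqrt (2 / L ^ 3) /
      Real.sqrt (2 * Real.sqrt (Pool.Agent.Helper49_Pauli.sq (wave L i.1))) = am i := by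
    unfold am om freq
    rw [← Real.sqrt_div (by positivity), one_div, ← Real.sqrt_inv]
    congr 1
    field_simp
  unfold Pool.Agent.Helper75_Pauli.Half.cf
  rw [← h]
  unfold kk tt
  ring

variable {D : Type} [NormedAddCommGroup D] [InnerProductSpace ℂ D]

open Pool.Agent.Helper75_Pauli.Half in
/-- the potential in the real modes -/
lemma hpot (hL : 0 < L) (P : Polarization L) (F : Bosons (Mode cut L) D) (x : X3) (j : Fin 3)
    (v : D) : potential F P x j v = ∑ i, ((cf P x j i : ℝ) : ℂ) •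
      ((rot F (U P) (unitary hL P)).a i v + (rot F (U P) (unitary hL P)).ad i v) := by
  have e1 : ∀ i, (rot F (U P) (unitary hL P)).a i v = ∑ m, U P i m • F.a m v := by
    intro i
    change (∑ m, U P i m • F.a m) v = _
    rw [LinearMap.sum_apply]; rfl
  have e2 : ∀ i, (rot F (U P) (unitary hL P)).ad i v =
      ∑ m, (starRingEnd ℂ) (U P i m) • F.ad m v := by
    intro i
    change (∑ m, (starRingEnd ℂ) (U P i m) • F.ad m) v = _
    rw [LinearMap.sum_apply]; rfl
  simp_rw [e1, e2, smul_add, Finset.smul_sum, ← mul_smul]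
  rw [Finset.sum_add_distrib, Finset.sum_comm, Finset.sum_comm (f := fun (i m : Mode cut L) =>
    (((cf P x j i : ℝ) : ℂ) * (starRingEnd ℂ) (U P i m)) • F.ad m v)]
  rw [← Finset.sum_add_distrib]
  unfold potential
  refine Finset.sum_congr rfl fun m _ => ?_
  rw [← Finset.sum_smul, ← Finset.sum_smul, coef_sum hL, smul_add, ← mul_smul, ← mul_smul]
  congr 2
  have := congrArg (starRingEnd ℂ) (coef_sum (cut := cut) hL P x j m)
  rw [map_sum] at this
  simp_rw [map_mul, Complex.conj_ofReal] at this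
  rw [this]
  congr 1
  rw [← Complex.exp_conj, map_mul, Complex.conj_ofReal, Complex.conj_I, neg_mul]

open Pool.Agent.Helper75_Pauli.Half in
/-- the field energy in the real modes -/
lemma hfe (hL : 0 < L) (P : Polarization L) (F : Bosons (Mode cut L) D) (v : D) :
    fieldEnergy F v = ∑ i : Mode cut L, ((Real.sqrt
      (Pool.Agent.Helper49_Pauli.sq (wave L i.1)) : ℝ) : ℂ) •
      (rot F (U P) (unitary hL P)).ad i ((rot F (U P) (unitary hL P)).a i v) :=
  (rot_energy F (U P) (unitary hL P) (fun i => (freq L i.1 : ℂ))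
      (fun i j h => by rw [U_freq P i j h]) v).symm

end field

section main

variable {cut L : ℝ} {n : ℕ} (alpha : ℝ) (P : Polarization L)
  (Q : Fin n → MvPolynomial (Mode cut L) ℂ) (f : Fin n → Fin 2 → X3 → ℂ)

/-- the polynomial of the state at the point `x` -/
def Rp (g : Fin n → ℂ) : MvPolynomial (Mode cut L) ℂ := ∑ k, MvPolynomial.C (g k) * Q k

lemma evy_Rp (g : Fin n → ℂ) (y : Mode cut L → ℝ) : evy (Rp Q g) y = ∑ k, evy (Q k) y * g k := by
  unfold Rp
  rw [evy_sum]
  refine Finset.sum_congr rfl fun k _ => ?_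
  rw [evy_mul, evy_C, mul_comm]

lemma pderiv_Rp (g : Fin n → ℂ) (i : Mode cut L) :
    MvPolynomial.pderiv i (Rp Q g) = Rp (fun k => MvPolynomial.pderiv i (Q k)) g := by
  unfold Rp
  rw [map_sum]
  exact Finset.sum_congr rfl fun k _ => MvPolynomial.pderiv_C_mul

/-- the wave function -/
def Psi (y : Mode cut L → ℝ) (x : X3) : S2 := fun s => ∑ k, Gen (Q k) (f k s) y x

lemma Psi_apply (y : Mode cut L → ℝ) (x : X3) (s : Fin 2) :
    Psi Q f y x s = ∑ k, evy (Q k) y * f k s x := rfl

/-- the polynomial of the covariant derivative -/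
def Tp (x : X3) (j : Fin 3) (s : Fin 2) : MvPolynomial (Mode cut L) ℂ :=
  MvPolynomial.C (-I) * Rp Q (fun k => fderiv ℝ (f k s) x (Pi.single j 1)) +
  MvPolynomial.C ((Real.sqrt alpha : ℝ) : ℂ) * ∑ i,
    MvPolynomial.C ((Pool.Agent.Helper75_Pauli.Half.cf P x j i : ℝ) : ℂ) *
      (MvPolynomial.X i * Rp Q (fun k => f k s x))

/-- the polynomial of the Dirac operator -/
def Dp (x : X3) : Fin 2 → MvPolynomial (Mode cut L) ℂ :=
  ![Tp alpha P Q f x 0 1 - MvPolynomial.C I * Tp alpha P Q f x 1 1 + Tp alpha P Q f x 2 0,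
    Tp alpha P Q f x 0 0 + MvPolynomial.C I * Tp alpha P Q f x 1 0 - Tp alpha P Q f x 2 1]

variable {f} (hf : ∀ k s, CS (f k s))

include hf in
lemma fderiv_f (k : Fin n) (s : Fin 2) (x : X3) :
    HasFDerivAt (f k s) (fderiv ℝ (f k s) x) x :=
  ((hf k s).1.differentiable (by simp) x).hasFDerivAt

include hf in
lemma fderiv_Psi (y : Mode cut L → ℝ) (x : X3) (s : Fin 2) (e : X3) :
    fderiv ℝ (fun x => Psi Q f y x s) x e = ∑ k, evy (Q k) y * fderiv ℝ (f k s) x e := by
  have d := HasFDerivAt.fun_sum (u := Finset.univ) fun k _ =>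
    (fderiv_f hf k s x).const_mul (evy (Q k) y)
  have e1 : (fun x => Psi Q f y x s) = fun x => ∑ k, evy (Q k) y * f k s x := rfl
  rw [e1, d.fderiv]
  simp

include hf in
lemma evy_Tp (hL : 0 < L) (x : X3) (j : Fin 3) (s : Fin 2) (y : Mode cut L → ℝ) :
    evy (Tp alpha P Q f x j s) y = cov (VV alpha P y) j (Psi Q f y) x s := by
  unfold Tp cov
  rw [fderiv_Psi Q hf, evy_add, evy_mul, evy_mul, evy_C, evy_C, evy_Rp, evy_sum, Psi_apply]
  congr 1
  have e1 : ((VV alpha P y x j : ℝ) : ℂ) = ((Real.sqrt alpha : ℝ) : ℂ) *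
      ∑ i, ((Pool.Agent.Helper75_Pauli.Half.cf P x j i : ℝ) : ℂ) * (y i : ℂ) := by
    unfold VV
    rw [Complex.ofReal_mul, Complex.ofReal_sum]
    congr 1
    refine Finset.sum_congr rfl fun i _ => ?_
    rw [cf_eq hL, ← Complex.ofReal_mul]
    congr 1
    ring
  rw [e1, mul_assoc, Finset.sum_mul]
  congr 1
  refine Finset.sum_congr rfl fun i _ => ?_
  rw [evy_mul, evy_C, evy_mul, evy_X, evy_Rp]
  ring

include hf in
lemma evy_Dp (hL : 0 < L) (x : X3) (s : Fin 2) (y : Mode cut L → ℝ) :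
    evy (Dp alpha P Q f x s) y = DD alpha P (Psi Q f) y x s := by
  unfold DD dop
  rw [← pauliDot_eq (fun j => cov (VV alpha P y) j (Psi Q f y) x)]
  unfold pauliDot Dp
  fin_cases s
  · simp only [Fin.zero_eta, Matrix.cons_val_zero]
    rw [evy_add, evy_sub, evy_mul, evy_C, evy_Tp alpha P Q hf hL, evy_Tp alpha P Q hf hL,
      evy_Tp alpha P Q hf hL, smul_eq_mul]
  · simp only [Fin.mk_one, Matrix.cons_val_one, Matrix.cons_val_fin_one]
    rw [evy_sub, evy_add, evy_mul, evy_C, evy_Tp alpha P Q hf hL, evy_Tp alpha P Q hf hL,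
      evy_Tp alpha P Q hf hL, smul_eq_mul]

variable {D : Type} [NormedAddCommGroup D] [InnerProductSpace ℂ D]
  (J : MvPolynomial (Mode cut L) ℂ →ₗ[ℂ] D)

lemma J_Rp (g : Fin n → ℂ) : J (Rp Q g) = ∑ k, g k • J (Q k) := by
  unfold Rp
  rw [map_sum]
  refine Finset.sum_congr rfl fun k _ => ?_
  rw [← MvPolynomial.smul_eq_C_mul, map_smul]

include hf in
lemma fderiv_psi {psi : X3 → Fin 2 → D} (hpsi : ∀ x s, psi x s = ∑ k, f k s x • J (Q k))
    (x : X3) (s : Fin 2) (e : X3) :
    fderiv ℝ (fun x => psi x s) x e = J (Rp Q fun k => fderiv ℝ (f k s) x e) := by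
  have d := HasFDerivAt.fun_sum (u := Finset.univ) fun k _ =>
    (fderiv_f hf k s x).smul_const (J (Q k))
  have e1 : (fun x => psi x s) = fun x => ∑ k, f k s x • J (Q k) := funext fun x => hpsi x s
  rw [e1, d.fderiv, J_Rp]
  simp

include hf in
lemma J_Tp {psi : X3 → Fin 2 → D} (hpsi : ∀ x s, psi x s = ∑ k, f k s x • J (Q k))
    (hL : 0 < L) (F : Bosons (Mode cut L) D)
    (hJX : ∀ i R, J (MvPolynomial.X i * R) =
      (Pool.Agent.Helper75_Pauli.Half.rot F (Pool.Agent.Helper75_Pauli.Half.U P)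
        (Pool.Agent.Helper75_Pauli.Half.unitary hL P)).a i (J R) +
      (Pool.Agent.Helper75_Pauli.Half.rot F (Pool.Agent.Helper75_Pauli.Half.U P)
        (Pool.Agent.Helper75_Pauli.Half.unitary hL P)).ad i (J R))
    (x : X3) (j : Fin 3) (s : Fin 2) :
    (-I) • fderiv ℝ (fun y => psi y s) x (Pi.single j 1) +
      (Real.sqrt alpha : ℂ) • potential F P x j (psi x s) = J (Tp alpha P Q f x j s) := by
  unfold Tp
  rw [fderiv_psi Q hf J hpsi, map_add, ← MvPolynomial.smul_eq_C_mul, map_smul,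
    ← MvPolynomial.smul_eq_C_mul, map_smul, map_sum, hpot hL]
  congr 2
  refine Finset.sum_congr rfl fun i _ => ?_
  rw [← MvPolynomial.smul_eq_C_mul, map_smul, hJX, J_Rp, hpsi]

include hf in
lemma dirac_psi {psi : X3 → Fin 2 → D} (hpsi : ∀ x s, psi x s = ∑ k, f k s x • J (Q k))
    (hL : 0 < L) (F : Bosons (Mode cut L) D)
    (hJX : ∀ i R, J (MvPolynomial.X i * R) =
      (Pool.Agent.Helper75_Pauli.Half.rot F (Pool.Agent.Helper75_Pauli.Half.U P)
        (Pool.Agent.Helper75_Pauli.Half.unitary hL P)).a i (J R) +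
      (Pool.Agent.Helper75_Pauli.Half.rot F (Pool.Agent.Helper75_Pauli.Half.U P)
        (Pool.Agent.Helper75_Pauli.Half.unitary hL P)).ad i (J R))
    (x : X3) (s : Fin 2) :
    dirac alpha F P psi x s = J (Dp alpha P Q f x s) := by
  unfold dirac
  simp only [J_Tp alpha P Q hf J hpsi hL F hJX]
  unfold pauliDot Dp
  fin_cases s
  · simp only [Fin.zero_eta, Matrix.cons_val_zero]
    rw [map_add, map_sub, ← MvPolynomial.smul_eq_C_mul, map_smul]
  · simp only [Fin.mk_one, Matrix.cons_val_one, Matrix.cons_val_fin_one]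
    rw [map_sub, map_add, ← MvPolynomial.smul_eq_C_mul, map_smul]

/-! continuity -/

lemma cont_f (hf : ∀ k s, CS (f k s)) (k : Fin n) (s : Fin 2) :
    Continuous fun z : (Mode cut L → ℝ) × X3 => f k s z.2 :=
  (hf k s).1.continuous.comp continuous_snd

lemma cont_df (hf : ∀ k s, CS (f k s)) (k : Fin n) (s : Fin 2) (e : X3) :
    Continuous fun z : (Mode cut L → ℝ) × X3 => fderiv ℝ (f k s) z.2 e :=
  (((hf k s).1.continuous_fderiv (by simp)).clm_apply continuous_const).comp continuous_snd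

lemma cont_Q (k : Fin n) : Continuous fun z : (Mode cut L → ℝ) × X3 => evy (Q k) z.1 :=
  (continuous_evy (Q k)).comp continuous_fst

include hf in
lemma cont_Rp (s : Fin 2) :
    Continuous fun z : (Mode cut L → ℝ) × X3 => evy (Rp Q fun k => f k s z.2) z.1 := by
  simp only [evy_Rp]
  exact continuous_finsetSum _ fun k _ => (cont_Q Q k).mul (cont_f hf k s)

lemma cont_cf (j : Fin 3) (i : Mode cut L) :
    Continuous fun x : X3 => Pool.Agent.Helper75_Pauli.Half.cf P x j i := by
  unfold Pool.Agent.Helper75_Pauli.Half.cf dot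
  fun_prop

include hf in
lemma cont_Tp (j : Fin 3) (s : Fin 2) :
    Continuous fun z : (Mode cut L → ℝ) × X3 => evy (Tp alpha P Q f z.2 j s) z.1 := by
  unfold Tp
  simp only [evy_add, evy_mul, evy_C, evy_sum, evy_X, evy_Rp]
  refine (continuous_const.mul (continuous_finsetSum _ fun k _ =>
    (cont_Q Q k).mul (cont_df hf k s _))).add (continuous_const.mul
    (continuous_finsetSum _ fun i _ => ?_))
  refine (Complex.continuous_ofReal.comp ((cont_cf P j i).comp continuous_snd)).mul ?_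
  refine (Complex.continuous_ofReal.comp ((continuous_apply i).comp continuous_fst)).mul ?_
  exact continuous_finsetSum _ fun k _ => (cont_Q Q k).mul (cont_f hf k s)

include hf in
lemma cont_Dp (s : Fin 2) :
    Continuous fun z : (Mode cut L → ℝ) × X3 => evy (Dp alpha P Q f z.2 s) z.1 := by
  unfold Dp
  have c := cont_Tp alpha P Q hf
  fin_cases s
  · simp only [Fin.zero_eta, Matrix.cons_val_zero, evy_add, evy_sub, evy_mul, evy_C]
    exact ((c 0 1).sub (continuous_const.mul (c 1 1))).add (c 2 0)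
  · simp only [Fin.mk_one, Matrix.cons_val_one, Matrix.cons_val_fin_one, evy_add, evy_sub,
      evy_mul, evy_C]
    exact ((c 0 0).add (continuous_const.mul (c 1 0))).sub (c 2 1)

lemma WW_Psi (hf : ∀ k s, CS (f k s)) : WW (Psi Q f) := by
  intro s
  have e : (fun (y : Mode cut L → ℝ) (x : X3) => Psi Q f y x s) = ∑ k, Gen (Q k) (f k s) := by
    funext y x
    simp only [Finset.sum_apply]
    rfl
  rw [e]
  exact Submodule.sum_mem _ fun k _ => Submodule.subset_span ⟨Q k, f k s, hf k s, rfl⟩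

lemma dY2_Psi (i : Mode cut L) (y : Mode cut L → ℝ) (x : X3) (s : Fin 2) :
    dY2 i (Psi Q f) y x s = evy (Rp (fun k => MvPolynomial.pderiv i (Q k)) fun k => f k s x) y := by
  unfold dY2 dY
  have d : HasDerivAt (fun t : ℝ => ∑ k, evy (Q k) (Function.update y i t) * f k s x)
      (∑ k, evy (MvPolynomial.pderiv i (Q k)) y * f k s x) (y i) :=
    HasDerivAt.fun_sum fun k _ => (hasDerivAt_evy (Q k) y i).mul_const _
  rw [evy_Rp]
  exact d.deriv

end main

theorem rep (_hSDY : SdyStmt) (_hSNF : SnfStmt) (_hNFI : NfiStmt) (hRP1 : Rp1Stmt)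
    (hRP2 : Rp2Stmt) : RepStmt := by
  intro cut L alpha hL halpha P D _ _ F hF psi hpsi
  obtain ⟨n, b, f, hf, hb⟩ := hRP2 D psi hpsi
  choose Q hQ using fun k => hRP1 cut L hL P D F hF (b k)
  set G := Pool.Agent.Helper75_Pauli.Half.rot F (Pool.Agent.Helper75_Pauli.Half.U P)
    (Pool.Agent.Helper75_Pauli.Half.unitary hL P) with hG
  have hJ : ∀ P Q, inner ℂ (JJ G P) (JJ G Q) = ∫ y, (starRingEnd ℂ)
        (MvPolynomial.eval (fun i => ((y i : ℝ) : ℂ)) P) *
          MvPolynomial.eval (fun i => ((y i : ℝ) : ℂ)) Q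
            ∂stdGaussian (EuclideanSpace ℝ (Mode cut L)) := by
    intro P Q
    rw [Pool.Agent.Helper61_Pauli.inner_JJ]
    unfold Pool.Agent.Helper61_Pauli.EE
    refine integral_congr_ae (Filter.Eventually.of_forall fun y => ?_)
    simp only
    rw [Asm.ev_mul, Pool.Agent.Helper61_Pauli.ev_cj]
    rfl
  have hb' : ∀ x s, psi x s = ∑ k, f k s x • JJ G (Q k) := by
    intro x s
    rw [hb]
    exact Finset.sum_congr rfl fun k _ => by rw [hQ]
  have hR : ∀ x s, psi x s = JJ G (Rp Q fun k => f k s x) := by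
    intro x s
    rw [J_Rp, hb']
  refine ⟨Psi Q f, WW_Psi Q hf, ?_, ?_⟩
  · have h := key hJ (fun _ : Fin 2 => (1 : ℝ)) (fun _ => zero_le_one)
      (fun x s => Rp Q fun k => f k s x) (fun s => cont_Rp Q hf s)
    simp only [one_mul] at h
    unfold Pool.Agent.Helper49_Pauli.normSq
    simp only [hR]
    rw [h]
    congr 1
    funext y x
    unfold nsq
    exact Finset.sum_congr rfl fun s _ => by rw [evy_Rp, Psi_apply]
  · rw [symm cut L hL P alpha halpha D F _ hpsi]
    congr 1
    · have h := key hJ (fun _ : Fin 2 => (1 : ℝ)) (fun _ => zero_le_one)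
        (fun x s => Dp alpha P Q f x s) (fun s => cont_Dp alpha P Q hf s)
      simp only [one_mul] at h
      simp only [dirac_psi alpha P Q hf (JJ G) hb' hL F (JJ_X G)]
      rw [h]
      congr 2
      funext y x
      unfold nsq
      exact Finset.sum_congr rfl fun s _ => by rw [evy_Dp alpha P Q hf hL]
    · have e1 : ∀ x s, (inner ℂ (psi x s) (fieldEnergy F (psi x s))).re =
          ∑ i : Mode cut L, om i *
            ‖JJ G (MvPolynomial.pderiv i (Rp Q fun k => f k s x))‖ ^ 2 := by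
        intro x s
        rw [hR]
        exact Asm.fieldEnergy_J (JJ G) (fun i => wave L i.1) F G (a_JJ G) (hfe hL P F) _
      have e2 : ∀ x, ∑ s, (inner ℂ (psi x s) (fieldEnergy F (psi x s))).re =
          ∑ a : Fin 2 × Mode cut L, om a.2 *
            ‖JJ G (Rp (fun k => MvPolynomial.pderiv a.2 (Q k)) fun k => f k a.1 x)‖ ^ 2 := by
        intro x
        rw [Fintype.sum_prod_type]
        refine Finset.sum_congr rfl fun s _ => ?_
        rw [e1]
        exact Finset.sum_congr rfl fun i _ => by rw [pderiv_Rp]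
      simp only [e2]
      have h := key hJ (fun a : Fin 2 × Mode cut L => om a.2) (fun a => Real.sqrt_nonneg _)
        (fun x a => Rp (fun k => MvPolynomial.pderiv a.2 (Q k)) fun k => f k a.1 x)
        (fun a => cont_Rp (fun k => MvPolynomial.pderiv a.2 (Q k)) hf a.1)
      rw [h]
      congr 1
      funext y x
      rw [Fintype.sum_prod_type, Finset.sum_comm]
      refine Finset.sum_congr rfl fun i _ => ?_
      unfold nsq
      rw [Finset.mul_sum]
      exact Finset.sum_congr rfl fun s _ => by rw [dY2_Psi]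

end Pool.Agent.MBX.H16
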